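import Mathlib
import Pool.Agent.X195.Braid5

/-!
# The diameter of a braid graph is the dimension of the reduced expression

Positive answer to Q1 of MP_de0ecf_co.  Idea: in a braid class of type `Λ` the set of central
letters is described by one constraint for each pair of overlapping shadows (not both central
letters are the common letter), so the class is the set of all solutions of a system of
constraints along a path, in which a pair of complementary solutions can be written down.
-/

set_option autoImplicit false

namespace Pool.Agent.Results.MP_de0ecf_co.DiameterIsDimension

open Pool.Agent.X195.Braid

universe u v

/-- For every Coxeter system of type `Λ` and every reduced expression `α` the largest distance in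
the braid graph of `α` is the number of braid shadows of the braid class of `α`. -/
theorem result {S : Type u} {W : Type v} [Group W] (M : CoxeterMatrix S) (cs : CoxeterSystem M W)
    (hM : TypeLambda M) (α : List S) (hα : cs.IsReduced α) :
    (shadows M α).Finite ∧ (braidGraph M α).Connected ∧
      (braidGraph M α).ediam = ((shadows M α).ncard : ℕ∞) ∧
      (braidGraph M α).diam = (shadows M α).ncard := by
  have h := ediam_eq cs hM hα
  have : Nonempty (braidClass M α) := ⟨⟨α, Relation.ReflTransGen.refl⟩⟩
  refine ⟨shadows_finite α, SimpleGraph.connected_of_ediam_ne_top ?_, h, diam_eq cs hM hα⟩
  rw [h]
  exact ENat.natCast_ne_top _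

end Pool.Agent.Results.MP_de0ecf_co.DiameterIsDimension
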